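import Mathlib

/-!
# Tails of measures with log-concave radial ball masses (task T2 of h212, abstract part)
-/

set_option autoImplicit false

namespace Pool.Agent.H317R2.KLS

open MeasureTheory Set
open scoped ENNReal

/-- Euclidean space -/
abbrev W (m : ℕ) := EuclideanSpace ℝ (Fin m)

theorem lintegral_exp_le {m : ℕ} (hm : 1 ≤ m) (a : ℝ) (ha : 0 < a) :
    ∫⁻ y : W m, ENNReal.ofReal (Real.exp (-(m * ‖y‖ / a))) ≤
      ENNReal.ofReal (a ^ m) * volume (Metric.closedBall (0 : W m) 1) := by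
  have : Nonempty (Fin m) := ⟨⟨0, hm⟩⟩
  have : Nontrivial (W m) := inferInstance
  have hm0 : (0 : ℝ) < m := by exact_mod_cast hm
  have hfr : Module.finrank ℝ (W m) = m := by simp
  have hv := MeasureTheory.measure_unitBall_eq_integral_div_gamma (volume : Measure (W m))
    (p := 1) one_pos
  simp only [Real.rpow_one, div_one] at hv
  rw [hfr] at hv
  have hG : Real.Gamma ((m : ℝ) + 1) = (m.factorial : ℝ) := Real.Gamma_nat_eq_factorial m
  rw [hG] at hv
  have hpos : 0 < volume (Metric.ball (0 : W m) 1) := Metric.measure_ball_pos _ _ one_pos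
  set J : ℝ := ∫ x : W m, Real.exp (-‖x‖) with hJ
  have hJpos : 0 < J := by
    by_contra h
    push Not at h
    rw [hv] at hpos
    rw [ENNReal.ofReal_pos] at hpos
    have : J / (m.factorial : ℝ) ≤ 0 := div_nonpos_of_nonpos_of_nonneg h (by positivity)
    linarith
  have hint : Integrable (fun x : W m => Real.exp (-‖x‖)) := by
    by_contra h
    rw [hJ, integral_undef h] at hJpos
    exact lt_irrefl _ hJpos
  have hc : (m : ℝ) / a ≠ 0 := by positivity
  have e1 : ∀ y : W m, Real.exp (-(m * ‖y‖ / a)) = (fun x : W m => Real.exp (-‖x‖)) ((m / a : ℝ) • y) := by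
    intro y
    simp only [norm_smul, Real.norm_eq_abs, abs_of_pos (div_pos hm0 ha)]
    congr 1
    ring
  have hint2 : Integrable (fun y : W m => Real.exp (-(m * ‖y‖ / a))) := by
    simp_rw [e1]
    exact (integrable_comp_smul_iff volume _ hc).2 hint
  rw [← ofReal_integral_eq_lintegral_ofReal hint2 (Filter.Eventually.of_forall fun y => (Real.exp_pos _).le)]
  have e2 : ∫ y : W m, Real.exp (-(m * ‖y‖ / a)) = (a / m) ^ m * J := by
    simp_rw [e1]
    have h := Measure.integral_comp_smul (volume : Measure (W m))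
      (fun x : W m => Real.exp (-‖x‖)) ((m : ℝ) / a)
    rw [hfr, ← hJ, smul_eq_mul] at h
    rw [h]
    congr 1
    rw [abs_of_pos (by positivity), ← inv_pow, inv_div]
  rw [e2]
  have hvol : volume (Metric.closedBall (0 : W m) 1) = ENNReal.ofReal (J / (m.factorial : ℝ)) := by
    rw [Measure.addHaar_closedBall_eq_addHaar_ball, hv]
  rw [hvol, ← ENNReal.ofReal_mul (by positivity)]
  apply ENNReal.ofReal_le_ofReal
  have hfac : (m.factorial : ℝ) ≤ (m : ℝ) ^ m := by exact_mod_cast Nat.factorial_le_pow m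
  have hfp : (0 : ℝ) < (m.factorial : ℝ) := by positivity
  rw [div_pow, div_mul_eq_mul_div, mul_div_assoc']
  apply div_le_div_of_nonneg_left (by positivity) hfp hfac

/-- Tonelli -/
theorem tonelli {m : ℕ} (L : Measure (W m)) [IsProbabilityMeasure L] (d : ℝ) (B : Set (W m)) :
    ∫⁻ y in B, L (Metric.closedBall y d) = ∫⁻ x, volume (B ∩ Metric.closedBall x d) ∂L := by
  have hS : MeasurableSet {p : W m × W m | dist p.1 p.2 ≤ d} :=
    (isClosed_le continuous_dist continuous_const).measurableSet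
  have h1 := Measure.prod_apply (μ := (volume : Measure (W m)).restrict B) (ν := L) hS
  have h2 := Measure.prod_apply_symm (μ := (volume : Measure (W m)).restrict B) (ν := L) hS
  rw [h1] at h2
  have e1 : ∀ y : W m, Prod.mk y ⁻¹' {p : W m × W m | dist p.1 p.2 ≤ d} =
      Metric.closedBall y d := by
    intro y
    ext x
    simp only [mem_preimage, mem_ofPred_eq, Metric.mem_closedBall]
    rw [dist_comm]
  have e2 : ∀ x : W m, (fun y => (y, x)) ⁻¹' {p : W m × W m | dist p.1 p.2 ≤ d} =
      Metric.closedBall x d := by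
    intro x
    ext y
    simp only [mem_preimage, mem_ofPred_eq, Metric.mem_closedBall]
  simp only [e1, e2] at h2
  rw [h2]
  congr 1
  funext x
  rw [Measure.restrict_apply Metric.isClosed_closedBall.measurableSet, inter_comm]

theorem vol_ball {m : ℕ} (x : W m) {r : ℝ} (hr : 0 ≤ r) :
    volume (Metric.closedBall x r) =
      ENNReal.ofReal (r ^ m) * volume (Metric.closedBall (0 : W m) 1) := by
  rw [Measure.addHaar_closedBall' volume x hr]
  simp

theorem tonelli_le {m : ℕ} (L : Measure (W m)) [IsProbabilityMeasure L] (d : ℝ) (hd : 0 ≤ d)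
    (B : Set (W m)) (hB : MeasurableSet B) :
    ∫⁻ y in B, L (Metric.closedBall y d) ≤
      ENNReal.ofReal (d ^ m) * volume (Metric.closedBall (0 : W m) 1) := by
  rw [tonelli L d B]
  calc ∫⁻ x, volume (B ∩ Metric.closedBall x d) ∂L
      ≤ ∫⁻ _x, ENNReal.ofReal (d ^ m) * volume (Metric.closedBall (0 : W m) 1) ∂L := by
        apply lintegral_mono
        intro x
        show volume (B ∩ Metric.closedBall x d) ≤ _
        rw [← vol_ball x hd]
        exact measure_mono inter_subset_right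
    _ = _ := by simp

theorem le_tonelli {m : ℕ} (L : Measure (W m)) [IsProbabilityMeasure L] (d : ℝ) (hd : 0 ≤ d)
    (A B : Set (W m)) (hA : MeasurableSet A) (hB : MeasurableSet B)
    (hAB : ∀ x ∈ A, Metric.closedBall x d ⊆ B) :
    ENNReal.ofReal (d ^ m) * volume (Metric.closedBall (0 : W m) 1) * L A ≤
      ∫⁻ y in B, L (Metric.closedBall y d) := by
  rw [tonelli L d B]
  calc ENNReal.ofReal (d ^ m) * volume (Metric.closedBall (0 : W m) 1) * L A
      = ∫⁻ _x in A, ENNReal.ofReal (d ^ m) * volume (Metric.closedBall (0 : W m) 1) ∂L := by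
        simp
    _ ≤ ∫⁻ x in A, volume (B ∩ Metric.closedBall x d) ∂L := by
        apply setLIntegral_mono' hA
        intro x hx
        rw [inter_eq_self_of_subset_right (hAB x hx), vol_ball x hd]
    _ ≤ _ := setLIntegral_le_lintegral _ _

theorem core_tail {m : ℕ} (hm : 1 ≤ m) (L : Measure (W m)) [IsProbabilityMeasure L] (σ : ℝ)
    (hσ : 0 < σ)
    (hlc : ∀ y z : W m, ∀ t : ℝ, 0 < t → t < 1 →
      (L (Metric.closedBall y (σ / 100))).toReal ^ (1 - t) *
        (L (Metric.closedBall z (σ / 100))).toReal ^ t ≤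
        (L (Metric.closedBall ((1 - t) • y + t • z) (σ / 100))).toReal)
    (hrot : ∀ y z : W m, ‖y‖ = ‖z‖ →
      L (Metric.closedBall y (σ / 100)) = L (Metric.closedBall z (σ / 100)))
    (hch : L {y | 2 * σ < ‖y‖} ≤ ENNReal.ofReal (1 / 4)) (r : ℝ) :
    L {y | r ≤ ‖y‖} ≤ ENNReal.ofReal (Real.exp (m * (5 / 2 - r / (20 * σ)))) := by
  set d : ℝ := σ / 100 with hd
  have hd0 : 0 < d := by positivity
  have hm0 : (0 : ℝ) < m := by exact_mod_cast hm
  have hm1 : (1 : ℝ) ≤ m := by exact_mod_cast hm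
  set q : W m → ℝ := fun y => (L (Metric.closedBall y d)).toReal with hq
  have hqL : ∀ y, L (Metric.closedBall y d) = ENNReal.ofReal (q y) := fun y =>
    (ENNReal.ofReal_toReal (measure_ne_top L _)).symm
  have hq0 : ∀ y, 0 ≤ q y := fun y => ENNReal.toReal_nonneg
  have hq1 : ∀ y, q y ≤ 1 := fun y => by
    have := ENNReal.toReal_mono ENNReal.one_ne_top (prob_le_one (μ := L)
      (s := Metric.closedBall y d))
    simpa using this
  have hrot' : ∀ y z : W m, ‖y‖ = ‖z‖ → q y = q z := fun y z h => by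
    simp only [hq]; rw [hrot y z h]
  have hlc' : ∀ y z : W m, ∀ t : ℝ, 0 < t → t < 1 →
      q y ^ (1 - t) * q z ^ t ≤ q ((1 - t) • y + t • z) := hlc
  have hM1 : ∀ y, q y ≤ q 0 := by
    intro y
    have h := hlc' y (-y) (1 / 2) (by norm_num) (by norm_num)
    rw [hrot' (-y) y (norm_neg y)] at h
    have e : ((1 : ℝ) - 1 / 2) • y + (1 / 2 : ℝ) • (-y) = 0 := by
      rw [smul_neg]; norm_num
    rw [e, ← Real.rpow_add_of_nonneg (hq0 y) (by norm_num) (by norm_num)] at h
    norm_num at h
    exact h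
  have hM2 : ∀ y z : W m, ‖y‖ ≤ ‖z‖ → q z ≤ q y := by
    intro y z hyz
    rcases eq_or_lt_of_le (norm_nonneg y) with hy | hy
    · have : y = 0 := by rwa [eq_comm, norm_eq_zero] at hy
      rw [this]; exact hM1 z
    rcases eq_or_lt_of_le hyz with h | h
    · exact (hrot' y z h).ge
    have hz : 0 < ‖z‖ := lt_of_lt_of_le hy hyz
    set t : ℝ := ‖y‖ / ‖z‖ with ht
    have ht0 : 0 < t := by positivity
    have ht1 : t < 1 := by rw [ht, div_lt_one hz]; exact h
    have h1 := hlc' 0 z t ht0 ht1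
    rw [smul_zero, zero_add] at h1
    have h2 : q (t • z) = q y := by
      apply hrot'
      rw [norm_smul, Real.norm_eq_abs, abs_of_pos ht0, ht, div_mul_cancel₀ _ hz.ne']
    rw [h2] at h1
    refine le_trans ?_ h1
    calc q z = q z ^ (1 - t) * q z ^ t := by
          rw [← Real.rpow_add_of_nonneg (hq0 z) (by linarith) ht0.le]
          norm_num
      _ ≤ q 0 ^ (1 - t) * q z ^ t := by
          apply mul_le_mul_of_nonneg_right _ (Real.rpow_nonneg (hq0 z) _)
          exact Real.rpow_le_rpow (hq0 z) (hM1 z) (by linarith)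
  set vm : ℝ≥0∞ := volume (Metric.closedBall (0 : W m) 1) with hvm
  have hvm0 : vm ≠ 0 := (Metric.measure_closedBall_pos volume _ one_pos).ne'
  have hvmt : vm ≠ ⊤ := measure_closedBall_lt_top.ne
  -- lower bound for q 0
  have hlow : L {y | ‖y‖ ≤ 2 * σ} ≥ ENNReal.ofReal (3 / 4) := by
    have hcompl : {y : W m | ‖y‖ ≤ 2 * σ} = {y | 2 * σ < ‖y‖}ᶜ := by
      ext y; simp
    have hms : MeasurableSet {y : W m | 2 * σ < ‖y‖} :=
      (isOpen_lt continuous_const continuous_norm).measurableSet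
    rw [hcompl, prob_compl_eq_one_sub hms]
    calc ENNReal.ofReal (3 / 4) = 1 - ENNReal.ofReal (1 / 4) := by
          rw [← ENNReal.ofReal_one, ← ENNReal.ofReal_sub _ (by norm_num)]
          norm_num
      _ ≤ 1 - L {y | 2 * σ < ‖y‖} := tsub_le_tsub_left hch 1
  set R : ℝ := 2 * σ + d with hR
  have hq0low : 3 / 4 * d ^ m ≤ q 0 * R ^ m := by
    have hA : MeasurableSet {y : W m | ‖y‖ ≤ 2 * σ} :=
      (isClosed_le continuous_norm continuous_const).measurableSet
    have h1 := le_tonelli L d hd0.le {y : W m | ‖y‖ ≤ 2 * σ} (Metric.closedBall 0 R) hA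
      Metric.isClosed_closedBall.measurableSet (by
        intro x hx z hz
        rw [Metric.mem_closedBall] at hz ⊢
        have hx' : ‖x‖ ≤ 2 * σ := hx
        calc dist z 0 ≤ dist z x + dist x 0 := dist_triangle _ _ _
          _ ≤ d + 2 * σ := by rw [dist_zero_right]; exact add_le_add hz hx'
          _ = R := by rw [hR]; ring)
    have h2 : ∫⁻ y in Metric.closedBall (0 : W m) R, L (Metric.closedBall y d) ≤
        ENNReal.ofReal (q 0) * (ENNReal.ofReal (R ^ m) * vm) := by
      calc ∫⁻ y in Metric.closedBall (0 : W m) R, L (Metric.closedBall y d)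
          ≤ ∫⁻ _y in Metric.closedBall (0 : W m) R, ENNReal.ofReal (q 0) := by
            apply lintegral_mono
            intro y
            show L (Metric.closedBall y d) ≤ _
            rw [hqL y]
            exact ENNReal.ofReal_le_ofReal (hM1 y)
        _ = ENNReal.ofReal (q 0) * (ENNReal.ofReal (R ^ m) * vm) := by
            rw [setLIntegral_const, vol_ball _ (by positivity)]
    have h3 : ENNReal.ofReal (d ^ m) * vm * ENNReal.ofReal (3 / 4) ≤
        ENNReal.ofReal (q 0) * (ENNReal.ofReal (R ^ m) * vm) :=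
      le_trans (by gcongr) (le_trans h1 h2)
    have h4 : ENNReal.ofReal (3 / 4 * d ^ m) * vm ≤ ENNReal.ofReal (q 0 * R ^ m) * vm := by
      rw [ENNReal.ofReal_mul (by norm_num), ENNReal.ofReal_mul (hq0 0)]
      calc ENNReal.ofReal (3 / 4) * ENNReal.ofReal (d ^ m) * vm
          = ENNReal.ofReal (d ^ m) * vm * ENNReal.ofReal (3 / 4) := by ring
        _ ≤ _ := h3
        _ = _ := by ring
    have h5 : ENNReal.ofReal (3 / 4 * d ^ m) ≤ ENNReal.ofReal (q 0 * R ^ m) :=
      (ENNReal.mul_le_mul_iff_left hvm0 hvmt).1 h4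
    exact (ENNReal.ofReal_le_ofReal_iff (by have := hq0 0; positivity)).1 h5
  have hq00 : 0 < q 0 := by
    rcases eq_or_lt_of_le (hq0 0) with h | h
    · rw [← h, zero_mul] at hq0low
      have : 0 < 3 / 4 * d ^ m := by positivity
      linarith
    · exact h
  -- the scale
  set u : ℝ := (q 0)⁻¹ ^ ((m : ℝ)⁻¹) with hu
  have hum : u ^ m = (q 0)⁻¹ := by
    rw [hu, Real.rpow_inv_natCast_pow (by positivity) (by omega)]
  have hu1 : 1 ≤ u := by
    rw [hu]
    apply Real.one_le_rpow _ (by positivity)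
    exact (one_le_inv₀ hq00).2 (hq1 0)
  have hu0 : 0 < u := by linarith
  have hur : d * u ≤ 4 / 3 * R := by
    have h1 : (d * u) ^ m ≤ (4 / 3 * R) ^ m := by
      rw [mul_pow, mul_pow, hum]
      have h2 : (4 / 3 : ℝ) ≤ (4 / 3) ^ m := by
        calc (4 / 3 : ℝ) = (4 / 3) ^ 1 := by norm_num
          _ ≤ (4 / 3) ^ m := pow_le_pow_right₀ (by norm_num) hm
      have h3 : d ^ m ≤ 4 / 3 * (q 0 * R ^ m) := by linarith
      calc d ^ m * (q 0)⁻¹ ≤ 4 / 3 * (q 0 * R ^ m) * (q 0)⁻¹ := by
            apply mul_le_mul_of_nonneg_right h3 (by positivity)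
        _ = 4 / 3 * R ^ m := by field_simp
        _ ≤ (4 / 3) ^ m * R ^ m := by
            apply mul_le_mul_of_nonneg_right h2 (by positivity)
    exact le_of_pow_le_pow_left₀ (by omega) (by positivity) h1
  set r0 : ℝ := Real.exp 2 * (d * u) with hr0
  have he2a : Real.exp 2 ≤ 7.39 := by
    have := Real.exp_one_lt_d9
    have h2 : Real.exp 2 = Real.exp 1 ^ 2 := by rw [← Real.exp_nat_mul]; norm_num
    rw [h2]
    have h0 := Real.exp_pos 1
    nlinarith
  have he2b : 7.38 ≤ Real.exp 2 := by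
    have := Real.exp_one_gt_d9
    have h2 : Real.exp 2 = Real.exp 1 ^ 2 := by rw [← Real.exp_nat_mul]; norm_num
    rw [h2]
    nlinarith
  have hr0pos : 0 < r0 := by positivity
  have hr0le : r0 ≤ 20 * σ := by
    have h1 : d * u ≤ 2.68 * σ := by
      refine le_trans hur ?_
      rw [hR, hd]; linarith
    calc r0 = Real.exp 2 * (d * u) := rfl
      _ ≤ 7.39 * (2.68 * σ) := by
          apply mul_le_mul he2a h1 (by positivity) (by norm_num)
      _ ≤ 20 * σ := by nlinarith
  have hdr0 : d ≤ 0.14 * r0 := by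
    rw [hr0]
    have h1 : d ≤ d * u := by nlinarith
    nlinarith [mul_pos hd0 hu0]
  have hr0m : r0 ^ m = Real.exp (2 * m) * (d ^ m * (q 0)⁻¹) := by
    rw [hr0, mul_pow, mul_pow, hum, ← Real.exp_nat_mul]
    congr 2
    ring
  -- (d)
  have hD : ∀ y : W m, ‖y‖ = r0 → q y ≤ q 0 * Real.exp (-(2 * m)) := by
    intro y hy
    have h1 := tonelli_le L d hd0.le (Metric.closedBall (0 : W m) r0)
      Metric.isClosed_closedBall.measurableSet
    have h2 : ENNReal.ofReal (q y) * (ENNReal.ofReal (r0 ^ m) * vm) ≤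
        ∫⁻ z in Metric.closedBall (0 : W m) r0, L (Metric.closedBall z d) := by
      rw [← vol_ball (0 : W m) hr0pos.le, ← setLIntegral_const]
      apply setLIntegral_mono' Metric.isClosed_closedBall.measurableSet
      intro z hz
      rw [hqL z]
      apply ENNReal.ofReal_le_ofReal
      apply hM2
      rw [hy]
      simpa using hz
    have h3 : ENNReal.ofReal (q y * r0 ^ m) * vm ≤ ENNReal.ofReal (d ^ m) * vm := by
      rw [ENNReal.ofReal_mul (hq0 y), mul_assoc]
      exact le_trans h2 h1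
    have h4 := (ENNReal.mul_le_mul_iff_left hvm0 hvmt).1 h3
    have h5 := (ENNReal.ofReal_le_ofReal_iff (by positivity)).1 h4
    rw [hr0m] at h5
    have h6 : q y * (Real.exp (2 * m) * (q 0)⁻¹) ≤ 1 := by
      have hdm : 0 < d ^ m := by positivity
      by_contra hcon
      push Not at hcon
      have : d ^ m * 1 < d ^ m * (q y * (Real.exp (2 * m) * (q 0)⁻¹)) :=
        mul_lt_mul_of_pos_left hcon hdm
      have h7 : d ^ m * (q y * (Real.exp (2 * m) * (q 0)⁻¹)) =
        q y * (Real.exp (2 * m) * (d ^ m * (q 0)⁻¹)) := by ring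
      linarith
    have hE : 0 < Real.exp (2 * m) := Real.exp_pos _
    rw [Real.exp_neg]
    calc q y = q y * (Real.exp (2 * m) * (q 0)⁻¹) * (q 0 * (Real.exp (2 * m))⁻¹) := by
          field_simp
      _ ≤ 1 * (q 0 * (Real.exp (2 * m))⁻¹) := by
          apply mul_le_mul_of_nonneg_right h6 (by positivity)
      _ = _ := one_mul _
  -- (e)
  have hE : ∀ y : W m, r0 ≤ ‖y‖ → q y ≤ q 0 * Real.exp (-(2 * m * ‖y‖ / r0)) := by
    intro y hy
    rcases eq_or_lt_of_le hy with h | h
    · have := hD y h.symm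
      rwa [← h, mul_div_assoc, div_self hr0pos.ne', mul_one]
    have hy0 : 0 < ‖y‖ := lt_of_lt_of_le hr0pos hy
    set t : ℝ := r0 / ‖y‖ with ht
    have ht0 : 0 < t := by positivity
    have ht1 : t < 1 := by rw [ht, div_lt_one hy0]; exact h
    have h1 := hlc' 0 y t ht0 ht1
    rw [smul_zero, zero_add] at h1
    have h2 : q (t • y) ≤ q 0 * Real.exp (-(2 * m)) := by
      apply hD
      rw [norm_smul, Real.norm_eq_abs, abs_of_pos ht0, ht, div_mul_cancel₀ _ hy0.ne']
    have h3 := le_trans h1 h2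
    have h4 : q y ^ t ≤ q 0 ^ t * Real.exp (-(2 * m)) := by
      have hp : 0 < q 0 ^ (1 - t) := Real.rpow_pos_of_pos hq00 _
      have h5 : q 0 ^ (1 - t) * q 0 ^ t = q 0 := by
        rw [← Real.rpow_add hq00]; norm_num
      have h6 : q 0 ^ (1 - t) * q y ^ t ≤ q 0 ^ (1 - t) * (q 0 ^ t * Real.exp (-(2 * m))) := by
        rw [← mul_assoc, h5]; exact h3
      exact le_of_mul_le_mul_left h6 hp
    have h7 : (q 0 * Real.exp (-(2 * m * ‖y‖ / r0))) ^ t = q 0 ^ t * Real.exp (-(2 * m)) := by
      rw [Real.mul_rpow hq00.le (Real.exp_pos _).le, ← Real.exp_mul]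
      congr 2
      rw [ht]
      field_simp
    rw [← h7] at h4
    exact (Real.rpow_le_rpow_iff (hq0 y) (by positivity) ht0).1 h4
  -- (f)
  by_cases hr : r < r0 + d
  · have h1 : (0 : ℝ) ≤ m * (5 / 2 - r / (20 * σ)) := by
      apply mul_nonneg hm0.le
      have h2 : r ≤ 22.8 * σ := by nlinarith
      have h3 : r / (20 * σ) ≤ 1.14 := by
        rw [div_le_iff₀ (by positivity)]; nlinarith
      linarith
    calc L {y | r ≤ ‖y‖} ≤ 1 := prob_le_one
      _ = ENNReal.ofReal 1 := ENNReal.ofReal_one.symm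
      _ ≤ _ := by
        apply ENNReal.ofReal_le_ofReal
        exact Real.one_le_exp h1
  push Not at hr
  have hA : MeasurableSet {y : W m | r ≤ ‖y‖} :=
    (isClosed_le continuous_const continuous_norm).measurableSet
  have hB : MeasurableSet {y : W m | r - d ≤ ‖y‖} :=
    (isClosed_le continuous_const continuous_norm).measurableSet
  have h1 := le_tonelli L d hd0.le {y : W m | r ≤ ‖y‖} {y : W m | r - d ≤ ‖y‖} hA hB (by
    intro x hx z hz
    rw [Metric.mem_closedBall] at hz
    have hx' : r ≤ ‖x‖ := hx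
    show r - d ≤ ‖z‖
    have h2 : ‖x‖ ≤ ‖z‖ + dist z x := by
      rw [dist_comm, dist_eq_norm]
      calc ‖x‖ = ‖z + (x - z)‖ := by rw [add_sub_cancel]
        _ ≤ _ := norm_add_le _ _
    linarith)
  have h2 : ∫⁻ y in {y : W m | r - d ≤ ‖y‖}, L (Metric.closedBall y d) ≤
      ENNReal.ofReal (q 0 * Real.exp (-(m * (r - d) / r0))) *
        (ENNReal.ofReal (r0 ^ m) * vm) := by
    calc ∫⁻ y in {y : W m | r - d ≤ ‖y‖}, L (Metric.closedBall y d)
        ≤ ∫⁻ y in {y : W m | r - d ≤ ‖y‖},
            ENNReal.ofReal (q 0 * Real.exp (-(m * (r - d) / r0))) *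
              ENNReal.ofReal (Real.exp (-(m * ‖y‖ / r0))) := by
          apply setLIntegral_mono' hB
          intro y hy
          have hy' : r - d ≤ ‖y‖ := hy
          rw [hqL y, ← ENNReal.ofReal_mul (by positivity)]
          apply ENNReal.ofReal_le_ofReal
          refine le_trans (hE y (by linarith)) ?_
          rw [mul_assoc (q 0) (Real.exp _) (Real.exp _), ← Real.exp_add]
          apply mul_le_mul_of_nonneg_left _ hq00.le
          apply Real.exp_le_exp.2
          have h3 : m * (r - d) / r0 ≤ m * ‖y‖ / r0 := by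
            apply div_le_div_of_nonneg_right _ hr0pos.le
            apply mul_le_mul_of_nonneg_left hy' hm0.le
          have h4 : 2 * m * ‖y‖ / r0 = m * ‖y‖ / r0 + m * ‖y‖ / r0 := by ring
          linarith
      _ ≤ ∫⁻ y : W m, ENNReal.ofReal (q 0 * Real.exp (-(m * (r - d) / r0))) *
              ENNReal.ofReal (Real.exp (-(m * ‖y‖ / r0))) := setLIntegral_le_lintegral _ _
      _ = ENNReal.ofReal (q 0 * Real.exp (-(m * (r - d) / r0))) *
            ∫⁻ y : W m, ENNReal.ofReal (Real.exp (-(m * ‖y‖ / r0))) := by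
          rw [lintegral_const_mul' _ _ ENNReal.ofReal_ne_top]
      _ ≤ _ := by
          gcongr
          exact lintegral_exp_le hm r0 hr0pos
  have h3 := le_trans h1 h2
  have h4 : ENNReal.ofReal (d ^ m) * L {y : W m | r ≤ ‖y‖} ≤
      ENNReal.ofReal (q 0 * Real.exp (-(m * (r - d) / r0)) * r0 ^ m) := by
    have h5 : (ENNReal.ofReal (d ^ m) * L {y : W m | r ≤ ‖y‖}) * vm ≤
      ENNReal.ofReal (q 0 * Real.exp (-(m * (r - d) / r0)) * r0 ^ m) * vm := by
      rw [ENNReal.ofReal_mul (by positivity)]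
      calc (ENNReal.ofReal (d ^ m) * L {y : W m | r ≤ ‖y‖}) * vm
          = ENNReal.ofReal (d ^ m) * vm * L {y : W m | r ≤ ‖y‖} := by ring
        _ ≤ _ := h3
        _ = _ := by ring
    exact (ENNReal.mul_le_mul_iff_left hvm0 hvmt).1 h5
  have h6 : q 0 * Real.exp (-(m * (r - d) / r0)) * r0 ^ m =
      d ^ m * Real.exp (2 * m - m * (r - d) / r0) := by
    rw [hr0m, show 2 * (m : ℝ) - m * (r - d) / r0 = 2 * m + -(m * (r - d) / r0) from
      sub_eq_add_neg _ _, Real.exp_add]
    field_simp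
  rw [h6, ENNReal.ofReal_mul (by positivity)] at h4
  have h7 : L {y : W m | r ≤ ‖y‖} ≤ ENNReal.ofReal (Real.exp (2 * m - m * (r - d) / r0)) := by
    have hdm : ENNReal.ofReal (d ^ m) ≠ 0 := by
      rw [Ne, ENNReal.ofReal_eq_zero, not_le]; positivity
    exact (ENNReal.mul_le_mul_iff_right hdm ENNReal.ofReal_ne_top).1 h4
  refine le_trans h7 (ENNReal.ofReal_le_ofReal (Real.exp_le_exp.2 ?_))
  have h8 : d / r0 ≤ 0.14 := by rw [div_le_iff₀ hr0pos]; exact hdr0
  have hrpos : 0 ≤ r := by linarith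
  have h9 : r / (20 * σ) ≤ r / r0 := div_le_div_of_nonneg_left hrpos hr0pos hr0le
  have h10 : 2 * (m : ℝ) - m * (r - d) / r0 = m * (2 - r / r0 + d / r0) := by
    field_simp
    ring
  rw [h10]
  apply mul_le_mul_of_nonneg_left _ hm0.le
  linarith

end Pool.Agent.H317R2.KLS
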